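import Pool.Agent.W973.SRR.Defs

/-!
Project SRR: the test for preference lists.
-/

set_option autoImplicit false

namespace Pool.Agent.W921.SRR

open Pool.Agent.W973.SRR Pool.Agent.NPC

theorem perm_cons (n a : ℕ) (ha : a < n) :
    (a :: ((List.range n).filter fun b => decide (b ≠ a))).Perm (List.range n) := by
  have hnd : ((List.range n).filter fun b => decide (b ≠ a)).Nodup :=
    List.nodup_range.filter _
  refine (List.perm_ext_iff_of_nodup ?_ List.nodup_range).2 ?_
  · refine List.nodup_cons.2 ⟨?_, hnd⟩
    intro h
    rw [List.mem_filter] at h
    simp at h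
  · intro b
    simp only [List.mem_cons, List.mem_filter, List.mem_range, ne_eq, decide_eq_true_eq]
    constructor
    · rintro (rfl | ⟨h, _⟩)
      · exact ha
      · exact h
    · intro h
      by_cases hb : b = a
      · exact Or.inl hb
      · exact Or.inr ⟨h, hb⟩

theorem length_filt (n a : ℕ) (ha : a < n) :
    ((List.range n).filter fun b => decide (b ≠ a)).length + 1 = n := by
  have := (perm_cons n a ha).length_eq
  rwa [List.length_cons, List.length_range] at this

theorem prefb : S_PREFB := by
  intro n P
  unfold prefB IsPrefs
  rw [Bool.and_eq_true, decide_eq_true_iff, List.all_eq_true]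
  refine and_congr Iff.rfl ?_
  constructor
  · intro h a ha
    have h1 := h a (List.mem_range.2 ha)
    rw [Bool.and_eq_true, decide_eq_true_iff, List.all_eq_true] at h1
    obtain ⟨hlen, hall⟩ := h1
    have hnd : ((List.range n).filter fun b => decide (b ≠ a)).Nodup :=
      List.nodup_range.filter _
    have hsub : ((List.range n).filter fun b => decide (b ≠ a)) ⊆ P.getD a [] := by
      intro b hb
      rw [List.mem_filter] at hb
      have h2 := hall b hb.1
      rw [Bool.or_eq_true, decide_eq_true_iff, decide_eq_true_iff] at h2
      have h3 := of_decide_eq_true hb.2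
      exact h2.resolve_left h3
    have hsp := hnd.subperm hsub
    refine (hsp.perm_of_length_le ?_).symm
    have := length_filt n a ha
    omega
  · intro h a ha
    have ha' := List.mem_range.1 ha
    have h1 := h a ha'
    rw [Bool.and_eq_true, decide_eq_true_iff, List.all_eq_true]
    refine ⟨?_, ?_⟩
    · rw [h1.length_eq]
      exact length_filt n a ha'
    · intro b hb
      rw [Bool.or_eq_true, decide_eq_true_iff, decide_eq_true_iff]
      by_cases hba : b = a
      · exact Or.inl hba
      · refine Or.inr (h1.mem_iff.2 ?_)
        rw [List.mem_filter]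
        exact ⟨hb, decide_eq_true hba⟩

end Pool.Agent.W921.SRR
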